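import Pool.Agent.PatSturm.Final

/-!
# MP_2825c1_co: classification of the recurrent pattern Sturmian sequences

Single-sided and double-sided, over any alphabet. The proof is in the modules `PatSturm`.
-/

set_option autoImplicit false

namespace Pool.Agent.Results.MP_2825c1_co.Classification

open Pool.Agent.PatSturm.Statement

/-- **All recurrent pattern Sturmian sequences.** A double-sided sequence over an alphabet `A` is
recurrent and pattern Sturmian if and only if, after naming its two letters, it is a coding of an
irrational rotation by an interval or an arc-Toeplitz sequence. A single-sided sequence is recurrent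
and pattern Sturmian if and only if it is the restriction to the positive integers of such a
double-sided sequence. -/
theorem result :
    (∀ {A : Type} (x : ℤ → A), (Recurrent x ∧ PatternSturmian x) ↔
      ∃ (p q : A) (X : ℤ → Bool), p ≠ q ∧ (IntervalCoding X ∨ ArcToeplitz X) ∧
        ∀ m : ℤ, x m = if X m = true then p else q) ∧
    (∀ {A : Type} (x : ℕ → A), (Recurrent₁ x ∧ PatternSturmian₁ x) ↔
      ∃ (p q : A) (X : ℤ → Bool), p ≠ q ∧ (IntervalCoding X ∨ ArcToeplitz X) ∧
        ∀ m : ℕ, 1 ≤ m → x m = if X m = true then p else q) :=
  Pool.Agent.PatSturm.Final.full_result Pool.Agent.PatSturm.Final.main_holds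

end Pool.Agent.Results.MP_2825c1_co.Classification
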